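import Pool.Agent.Helper51.LPS.St

/-!
# Project LPS (MP_26ac92_gt): module FRO (adapted from module Fr of project PSB)
-/

set_option autoImplicit false

namespace Pool.Agent.Helper94.LPS

open MeasureTheory Pool.Helper51.PSB Pool.Helper51.LPS

/-- the frame as vectors of `W k` -/
private noncomputable def FrO_F {k : ℕ} (b : OrthonormalBasis (Fin (k + 3)) ℝ (W k)) (φ : ℝ) (i : Fin (k + 2)) : W k :=
  if i = 0 then Real.cos φ • b 0 + Real.sin φ • b 1 else b i.succ

private theorem FrO_ne1 {k : ℕ} {i : Fin (k + 2)} (h : i ≠ 0) : i.succ ≠ (1 : Fin (k + 3)) := by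
  intro h1
  apply h
  have : i.succ = (0 : Fin (k + 2)).succ := by rw [h1]; rfl
  exact Fin.succ_injective _ this

private theorem FrO_inner {k : ℕ} (b : OrthonormalBasis (Fin (k + 3)) ℝ (W k)) (i j : Fin (k + 3)) :
    (inner ℝ (b i) (b j) : ℝ) = if i = j then 1 else 0 :=
  (orthonormal_iff_ite.mp b.orthonormal) i j

private theorem FrO_orth {k : ℕ} (b : OrthonormalBasis (Fin (k + 3)) ℝ (W k)) (φ : ℝ) :
    Orthonormal ℝ (FrO_F b φ) := by
  rw [orthonormal_iff_ite]
  intro i j
  have hcs := Real.cos_sq_add_sin_sq φ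
  have h01 : (0 : Fin (k + 3)) ≠ 1 := by
    intro h
    have := congrArg Fin.val h
    simp at this
  unfold FrO_F
  by_cases hi : i = 0
  · by_cases hj : j = 0
    · rw [if_pos hi, if_pos hj, if_pos (hi.trans hj.symm)]
      simp only [inner_add_left, inner_add_right, real_inner_smul_left, real_inner_smul_right, FrO_inner]
      simp only [if_true, if_neg h01, if_neg h01.symm]
      nlinarith
    · rw [if_pos hi, if_neg hj, if_neg (by rw [hi]; exact fun h => hj h.symm)]
      simp only [inner_add_left, real_inner_smul_left, FrO_inner]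
      rw [if_neg (Fin.succ_ne_zero j).symm, if_neg (FrO_ne1 hj).symm]
      ring
  · by_cases hj : j = 0
    · rw [if_neg hi, if_pos hj, if_neg (by rw [hj]; exact hi)]
      simp only [inner_add_right, real_inner_smul_right, FrO_inner]
      rw [if_neg (Fin.succ_ne_zero i), if_neg (FrO_ne1 hi)]
      ring
    · rw [if_neg hi, if_neg hj, FrO_inner]
      by_cases hij : i = j
      · rw [if_pos hij, if_pos (by rw [hij])]
      · rw [if_neg hij, if_neg (fun h => hij (Fin.succ_injective _ h))]

private theorem FrO_u {k : ℕ} (b : OrthonormalBasis (Fin (k + 3)) ℝ (W k)) (φ : ℝ) (i : Fin (k + 2)) :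
    (inner ℝ (FrO_F b φ i) (-Real.sin φ • b 0 + Real.cos φ • b 1) : ℝ) = 0 := by
  have h01 : (0 : Fin (k + 3)) ≠ 1 := by
    intro h
    have := congrArg Fin.val h
    simp at this
  unfold FrO_F
  by_cases hi : i = 0
  · rw [if_pos hi]
    simp only [inner_add_left, inner_add_right, real_inner_smul_left, real_inner_smul_right, FrO_inner]
    simp only [if_true, if_neg h01, if_neg h01.symm]
    ring
  · rw [if_neg hi]
    simp only [inner_add_right, real_inner_smul_right, FrO_inner]
    rw [if_neg (Fin.succ_ne_zero i), if_neg (FrO_ne1 hi)]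
    ring

private theorem FrO_un {k : ℕ} (b : OrthonormalBasis (Fin (k + 3)) ℝ (W k)) (φ : ℝ) :
    ‖-Real.sin φ • b 0 + Real.cos φ • b 1‖ = 1 := by
  have h01 : (0 : Fin (k + 3)) ≠ 1 := by
    intro h
    have := congrArg Fin.val h
    simp at this
  have hcs := Real.cos_sq_add_sin_sq φ
  have h : ‖-Real.sin φ • b 0 + Real.cos φ • b 1‖ ^ 2 = 1 := by
    rw [← real_inner_self_eq_norm_sq]
    simp only [inner_add_left, inner_add_right, real_inner_smul_left, real_inner_smul_right, FrO_inner]
    simp only [if_true, if_neg h01, if_neg h01.symm]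
    nlinarith
  have h0 := norm_nonneg (-Real.sin φ • b 0 + Real.cos φ • b 1)
  nlinarith [sq_nonneg (‖-Real.sin φ • b 0 + Real.cos φ • b 1‖ - 1)]

private theorem FrO_ext {k : ℕ} (e f : Fin (k + 3) → ℝ) (he : ∑ l, e l ^ 2 = 1) (hf : ∑ l, f l ^ 2 = 1)
    (hef : ∑ l, e l * f l = 0) :
    ∃ b : OrthonormalBasis (Fin (k + 3)) ℝ (W k), (∀ l, b 0 l = e l) ∧ ∀ l, b 1 l = f l := by
  have h10 : (1 : Fin (k + 3)) ≠ 0 := by
    intro h
    have := congrArg Fin.val h
    simp at this
  let E : W k := WithLp.toLp 2 e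
  let F : W k := WithLp.toLp 2 f
  have hE : (inner ℝ E E : ℝ) = 1 := by
    rw [← he, PiLp.inner_apply]
    exact Finset.sum_congr rfl (fun l _ => by simp [E, sq])
  have hF : (inner ℝ F F : ℝ) = 1 := by
    rw [← hf, PiLp.inner_apply]
    exact Finset.sum_congr rfl (fun l _ => by simp [F, sq])
  have hEF : (inner ℝ E F : ℝ) = 0 := by
    rw [← hef, PiLp.inner_apply]
    exact Finset.sum_congr rfl (fun l _ => by simp [E, F, mul_comm])
  have hFE : (inner ℝ F E : ℝ) = 0 := by rw [real_inner_comm]; exact hEF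
  let v : Fin (k + 3) → W k := fun i => if i = 0 then E else F
  have hv : Orthonormal ℝ (Set.domRestrict ({0, 1} : Set (Fin (k + 3))) v) := by
    rw [orthonormal_iff_ite]
    rintro ⟨i, hi⟩ ⟨j, hj⟩
    simp only [Set.mem_insert_iff, Set.mem_singleton_iff] at hi hj
    simp only [Set.domRestrict_apply, Subtype.mk.injEq, v]
    rcases hi with rfl | rfl <;> rcases hj with rfl | rfl
    · rw [if_pos rfl, if_pos rfl]; exact hE
    · rw [if_pos rfl, if_neg h10, if_neg h10.symm]; exact hEF
    · rw [if_neg h10, if_pos rfl, if_neg h10]; exact hFE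
    · rw [if_neg h10, if_pos rfl]; exact hF
  obtain ⟨b, hb⟩ := Orthonormal.exists_orthonormalBasis_extension_of_card_eq
    (by rw [finrank_euclideanSpace]) hv
  refine ⟨b, fun l => ?_, fun l => ?_⟩
  · rw [hb 0 (by simp)]
    simp [v, E]
  · rw [hb 1 (by simp)]
    simp only [v]
    rw [if_neg h10]

/-- The frame and the isometries, with the orthogonality of the frame to the second vector. -/
theorem hFrO : StFrO := by
  intro k e f he hf hef
  obtain ⟨b, hb0, hb1⟩ := FrO_ext e f he hf hef
  refine ⟨fun i l => b i l, funext hb0, funext hb1, fun i hi => ?_, fun φ => ?_⟩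
  · have h := FrO_inner b i.succ 1
    rw [if_neg (FrO_ne1 hi), PiLp.inner_apply] at h
    rw [← h]
    exact Finset.sum_congr rfl (fun l _ => by simp [mul_comm])
  let B := (EuclideanSpace.basisFun (Fin (k + 2)) ℝ).toBasis
  let L : V k →ₗ[ℝ] W k := B.constr ℝ (FrO_F b φ)
  have hL : ∀ i, L (B i) = FrO_F b φ i := fun i => B.constr_basis ℝ (FrO_F b φ) i
  have hB : ∀ i, B i = EuclideanSpace.single i (1 : ℝ) := fun i => by simp [B]
  have hBo : Orthonormal ℝ B := by
    have h := (EuclideanSpace.basisFun (Fin (k + 2)) ℝ).orthonormal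
    rw [← OrthonormalBasis.coe_toBasis] at h
    exact h
  have hLo : Orthonormal ℝ (L ∘ B) := by
    have : (L ∘ B) = FrO_F b φ := funext hL
    rw [this]
    exact FrO_orth b φ
  refine ⟨L.isometryOfOrthonormal hBo hLo, -Real.sin φ • b 0 + Real.cos φ • b 1, FrO_un b φ, fun y => ?_,
    fun i l => ?_⟩
  · have h1 : innerₗ (W k) (-Real.sin φ • b 0 + Real.cos φ • b 1) ∘ₗ L = 0 := by
      apply B.ext
      intro i
      rw [LinearMap.comp_apply, innerₗ_apply_apply, hL, real_inner_comm]
      exact FrO_u b φ i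
    have h2 := LinearMap.congr_fun h1 y
    rw [LinearMap.comp_apply, innerₗ_apply_apply, real_inner_comm] at h2
    exact h2
  · have h3 : (L.isometryOfOrthonormal hBo hLo) (EuclideanSpace.single i (1 : ℝ)) = FrO_F b φ i := by
      rw [LinearMap.coe_isometryOfOrthonormal, ← hB, hL]
    rw [h3]
    unfold FrO_F frame
    by_cases hi : i = 0
    · rw [if_pos hi, if_pos hi]
      simp
    · rw [if_neg hi, if_neg hi]

end Pool.Agent.Helper94.LPS
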